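import Pool.Agent.H.MP_7cb37e_an.A

set_option autoImplicit false
set_option maxHeartbeats 400000
open Set Filter Topology Metric Complex
open scoped Real

namespace Pool.Agent.H.MP_7cb37e_an

def A0 (X : Set ℂ) : Subalgebra ℂ C(X, ℂ) where
  carrier := {g | ∃ p q : Polynomial ℂ, (∀ z ∈ X, q.eval z ≠ 0) ∧
    ∀ z : X, g z = p.eval (z : ℂ) / q.eval (z : ℂ)}
  mul_mem' := by
    rintro f g ⟨p, q, a, b⟩ ⟨p', q', a', b'⟩
    refine ⟨p * p', q * q', fun z hz => by simp [a z hz, a' z hz], fun z => ?_⟩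
    simp [b, b', div_mul_div_comm]
  add_mem' := by
    rintro f g ⟨p, q, a, b⟩ ⟨p', q', a', b'⟩
    refine ⟨p * q' + q * p', q * q', fun z hz => by simp [a z hz, a' z hz], fun z => ?_⟩
    simp [b, b', div_add_div _ _ (a z z.2) (a' z z.2)]
  algebraMap_mem' c := ⟨Polynomial.C c, 1, by simp, by simp⟩

lemma noD {X : Set ℂ} [CompactSpace X] (R : Subalgebra ℂ C(X, ℂ))
    (hR : (R : Set C(X, ℂ)) = closure (A0 X)) (x : X)
    (H : ∀ n : ℕ, ∃ (r : ℝ) (s : Finset (Σ _ : ℕ, ℕ)) (c : (Σ _ : ℕ, ℕ) → ℂ), 0 ≤ r ∧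
      (∀ i ∈ s, c i ∉ X) ∧ (∀ z ∈ X, ∑ i ∈ s, r / ‖z - c i‖ ≤ 2) ∧
      (n : ℝ) ≤ ∑ i ∈ s, r / ‖x - c i‖ ^ 2) (D : C(X, ℂ) → ℂ)
    (ha : ∀ f ∈ R, ∀ g ∈ R, D (f + g) = D f + D g)
    (hs : ∀ c : ℂ, ∀ f ∈ R, D (c • f) = c * D f)
    (hm : ∀ f ∈ R, ∀ g ∈ R, D (f * g) = f x * D g + g x * D f)
    (hb : ∃ C : ℝ, ∀ f ∈ R, ∀ M : ℝ, (∀ z : X, ‖f z‖ ≤ M) → ‖D f‖ ≤ C * M) :
    ∀ f ∈ R, D f = 0 := by
  obtain ⟨C, hb⟩ := hb
  have h0 : ∀ f ∈ A0 X, f ∈ R := fun f hf => by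
    rw [← SetLike.mem_coe, hR]; exact subset_closure hf
  obtain ⟨P, hP⟩ : ∃ P : Polynomial ℂ →ₐ[ℂ] C(X, ℂ), ∀ p (z : X), P p z = p.eval (z : ℂ) :=
    ⟨Polynomial.toContinuousMapOnAlgHom X, fun _ _ => rfl⟩
  have hPR : ∀ p, P p ∈ R := fun p => h0 _ ⟨p, 1, by simp, by simp [hP]⟩
  have d1 : D 1 = 0 := by
    have := hm 1 R.one_mem 1 R.one_mem
    simpa using this
  have dC : ∀ c, D (P (Polynomial.C c)) = 0 := fun c => by
    rw [← mul_one (Polynomial.C c), ← Polynomial.smul_eq_C_mul, map_smul, map_one,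
      hs _ _ R.one_mem, d1, mul_zero]
  have : ∀ c : ℂ, ∃ u : C(X, ℂ), c ∉ X → ∀ z : X, u z = ((z : ℂ) - c)⁻¹ := by
    intro c
    by_cases h : c ∉ X
    · exact ⟨⟨fun z => ((z : ℂ) - c)⁻¹, Continuous.inv₀ (by fun_prop) fun z => ne_of h z.2⟩,
        fun _ _ => rfl⟩
    · exact ⟨0, fun h' => absurd h' h⟩
  choose U hU using this
  have hUR : ∀ c, c ∉ X → U c ∈ R := fun c hc => h0 _ ⟨1, Polynomial.X - Polynomial.C c,
    fun z hz => by simpa using ne_of hc hz, fun z => by simp [hU c hc]⟩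
  have dU : ∀ c, c ∉ X → D (U c) = -D (P Polynomial.X) / ((x : ℂ) - c) ^ 2 := by
    intro c hc
    have a1 := hm _ (hPR (Polynomial.X + Polynomial.C (-c))) _ (hUR c hc)
    have a2 : P (Polynomial.X + Polynomial.C (-c)) * U c = 1 := by
      ext z
      have := ne_of hc z.2
      simp only [ContinuousMap.mul_apply, hP, hU c hc, Polynomial.eval_add, Polynomial.eval_X,
        Polynomial.eval_C, ContinuousMap.one_apply, ← sub_eq_add_neg]
      field_simp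
    rw [a2, d1, hP, map_add, ha _ (hPR _) _ (hPR _), dC, hU c hc] at a1
    have := ne_of hc x.2
    simp only [Polynomial.eval_add, Polynomial.eval_X, Polynomial.eval_C, ← sub_eq_add_neg] at a1
    field_simp at a1 ⊢
    linear_combination -a1
  have dS : ∀ (l c : (Σ _ : ℕ, ℕ) → ℂ) (s : Finset (Σ _ : ℕ, ℕ)), (∀ i ∈ s, c i ∉ X) →
      D (∑ i ∈ s, l i • U (c i)) = -D (P Polynomial.X) * ∑ i ∈ s, l i / ((x : ℂ) - c i) ^ 2 := by
    intro l c s
    induction s using Finset.induction_on with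
    | empty => intro _; simpa using hs 0 1 R.one_mem
    | insert i s hi ih =>
      intro h
      have a := h i (Finset.mem_insert_self _ _)
      have b : ∀ j ∈ s, c j ∉ X := fun j hj => h j (Finset.mem_insert_of_mem hj)
      rw [Finset.sum_insert hi, Finset.sum_insert hi, ha _ (R.smul_mem (hUR _ a) _) _
        (R.sum_mem fun j hj => R.smul_mem (hUR _ (b j hj)) _), ih b, hs _ _ (hUR _ a), dU _ a]
      ring
  have dX : D (P Polynomial.X) = 0 := by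
    by_contra hne
    have hpos := norm_pos_iff.2 hne
    obtain ⟨n, hn⟩ := exists_nat_gt (C * 2 / ‖D (P Polynomial.X)‖)
    obtain ⟨r, s, c, r0, a1, a2, a3⟩ := H n
    have nl : ∀ i ∈ s, ‖(r / ‖x - c i‖ ^ 2 : ℝ) * ((x : ℂ) - c i) ^ 2‖ = r := by
      intro i hi
      have := norm_pos_iff.2 (ne_of (a1 i hi) x.2)
      rw [norm_mul, norm_real, norm_pow, Real.norm_of_nonneg (by positivity)]
      field_simp
    have b1 := hb (∑ i ∈ s, (((r / ‖x - c i‖ ^ 2 : ℝ) : ℂ) * ((x : ℂ) - c i) ^ 2) • U (c i))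
      (R.sum_mem fun j hj => R.smul_mem (hUR _ (a1 j hj)) _) 2 (fun z => by
        rw [ContinuousMap.sum_apply]
        refine (norm_sum_le_of_le _ fun i hi => le_of_eq ?_).trans (a2 z z.2)
        rw [ContinuousMap.smul_apply, norm_smul, nl i hi, hU _ (a1 i hi), norm_inv,
          div_eq_mul_inv])
    rw [dS _ c s a1, Finset.sum_congr rfl fun i hi =>
      mul_div_cancel_right₀ _ (pow_ne_zero 2 (ne_of (a1 i hi) x.2)), ← ofReal_sum, norm_mul,
      norm_neg, norm_real, Real.norm_of_nonneg ((Nat.cast_nonneg n).trans a3)] at b1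
    rw [div_lt_iff₀ hpos] at hn
    nlinarith
  have dP : ∀ p, D (P p) = 0 := by
    intro p
    induction p using Polynomial.induction_on with
    | C c => exact dC c
    | add p q a b => rw [map_add, ha _ (hPR _) _ (hPR _), a, b, add_zero]
    | monomial n c a =>
      rw [pow_succ, ← mul_assoc, map_mul, hm _ (hPR _) _ (hPR _), a, dX]; simp
  have dA : ∀ f ∈ A0 X, D f = 0 := by
    intro f hf
    have a0 := h0 f hf
    obtain ⟨p, q, a, b⟩ := hf
    have a1 := hm _ (hPR q) _ a0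
    have a2 : P q * f = P p := by
      ext z
      have := a z z.2
      simp only [ContinuousMap.mul_apply, hP, b]
      field_simp
    rw [a2, dP, dP, hP, mul_zero, add_zero] at a1
    exact (mul_eq_zero.1 a1.symm).resolve_left (a x x.2)
  intro f hf
  rw [← norm_le_zero_iff]
  refine le_of_forall_pos_le_add fun ε hε => ?_
  have hf' : f ∈ closure (A0 X : Set C(X, ℂ)) := by rw [← hR]; exact hf
  obtain ⟨g, hg, a⟩ := Metric.mem_closure_iff.1 hf' (ε / (|C| + 1)) (by positivity)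
  have a1 := ha _ (R.sub_mem hf (h0 g hg)) _ (h0 g hg)
  rw [sub_add_cancel, dA g hg, add_zero] at a1
  rw [a1, zero_add]
  refine (hb _ (R.sub_mem hf (h0 g hg)) (ε / (|C| + 1)) fun z => ?_).trans ?_
  · rw [ContinuousMap.sub_apply, ← dist_eq_norm]
    exact (ContinuousMap.dist_apply_le_dist z).trans a.le
  · rw [← mul_div_assoc, div_le_iff₀ (by positivity)]
    nlinarith [le_abs_self C]

noncomputable def gp (N : ℕ) (q : ℤ × ℤ) : ℂ := ⟨(q.1 + 1 / 2) / N, (q.2 + 1 / 2) / N⟩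

lemma sep {N : ℕ} (hN : 0 < N) {t : ℝ} {m : ℤ} (h : t * N = m) (j : ℤ) :
    1 / (2 * N) ≤ |t - (j + 1 / 2) / N| := by
  have h0 : (0 : ℝ) < N := by positivity
  have e : t - (j + 1 / 2) / N = (m - j - 1 / 2) / N := by rw [← h]; field_simp; ring
  rw [e, abs_div, abs_of_pos h0, ← div_div, div_le_div_iff_of_pos_right h0, le_abs]
  rcases le_or_gt m j with a | a
  · have : (m : ℝ) ≤ j := by exact_mod_cast a
    right; linarith
  · have : (j : ℝ) + 1 ≤ m := by exact_mod_cast a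
    left; linarith

lemma re_le (z : ℂ) (N : ℕ) (q : ℤ × ℤ) : |z.re - (q.1 + 1 / 2) / N| ≤ ‖z - gp N q‖ :=
  abs_re_le_norm (z - gp N q)

lemma im_le (z : ℂ) (N : ℕ) (q : ℤ × ℤ) : |z.im - (q.2 + 1 / 2) / N| ≤ ‖z - gp N q‖ :=
  abs_im_le_norm (z - gp N q)

lemma gp_sep {N : ℕ} (hN : 0 < N) {q q' : ℤ × ℤ} (h : q ≠ q') : 1 / N ≤ ‖gp N q - gp N q'‖ := by
  have h0 : (0 : ℝ) < N := by positivity
  have key : ∀ a b : ℤ, a ≠ b → (1 : ℝ) / N ≤ |((a : ℝ) + 1 / 2) / N - ((b : ℝ) + 1 / 2) / N| := by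
    intro a b hab
    rw [← sub_div, abs_div, abs_of_pos h0, div_le_div_iff_of_pos_right h0,
      add_sub_add_right_eq_sub]
    exact_mod_cast Int.one_le_abs (sub_ne_zero.2 hab)
  by_cases h1 : q.1 = q'.1
  · exact (key _ _ fun h2 => h (Prod.ext h1 h2)).trans (im_le (gp N q) N q')
  · exact (key _ _ h1).trans (re_le (gp N q) N q')

lemma fl {N : ℕ} (hN : 0 < N) (t : ℝ) (j : ℤ) :
    |(t - (j + 1 / 2) / N) * N + (j - ⌊t * N⌋ : ℤ)| ≤ 1 / 2 := by
  have h0 : (0 : ℝ) < N := by positivity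
  have e : (t - (j + 1 / 2) / N) * N + (j - ⌊t * N⌋ : ℤ) = t * N - ⌊t * N⌋ - 1 / 2 := by
    push_cast; field_simp; ring
  rw [e, abs_le]
  constructor <;> linarith [Int.floor_le (t * N), Int.lt_floor_add_one (t * N)]

lemma dist1 {N : ℕ} (hN : 0 < N) {t d : ℝ} {j : ℤ} (h1 : 1 / (2 * N) ≤ d)
    (h2 : |t - (j + 1 / 2) / N| ≤ d) : ((j - ⌊t * N⌋).natAbs + 1 : ℝ) ≤ 4 * N * d := by
  have h0 : (0 : ℝ) < N := by positivity
  have h3 := fl hN t j
  rw [div_le_iff₀ (by positivity)] at h1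
  have h4 : |(t - (j + 1 / 2) / N) * N| ≤ d * N := by
    rw [abs_mul, abs_of_pos h0]; gcongr
  rw [Nat.cast_natAbs, Int.cast_abs]
  have := abs_sub (((t - (j + 1 / 2) / N) * N + (j - ⌊t * N⌋ : ℤ))) ((t - (j + 1 / 2) / N) * N)
  rw [add_sub_cancel_left] at this
  linarith

lemma fold {ψ : ℕ → ℝ} (h0 : ∀ p, 0 ≤ ψ p) (j0 : ℤ) (S : Finset ℤ) {K : ℕ}
    (h : ∀ j ∈ S, (j - j0).natAbs < K) :
    ∑ j ∈ S, ψ (j - j0).natAbs ≤ 2 * ∑ p ∈ Finset.range K, ψ p := by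
  rw [← Finset.sum_fiberwise_of_maps_to (g := fun j => (j - j0).natAbs) (t := Finset.range K)
    (fun j hj => Finset.mem_range.2 (h j hj)), Finset.mul_sum]
  refine Finset.sum_le_sum fun p _ => ?_
  rw [Finset.sum_congr rfl (g := fun _ => ψ p) fun j hj => by rw [(Finset.mem_filter.1 hj).2],
    Finset.sum_const, nsmul_eq_mul]
  apply mul_le_mul_of_nonneg_right _ (h0 p)
  have : (S.filter fun j => (j - j0).natAbs = p) ⊆ {j0 + p, j0 - p} := fun j hj => by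
    have := (Finset.mem_filter.1 hj).2
    simp only [Finset.mem_insert, Finset.mem_singleton]
    omega
  exact_mod_cast (Finset.card_le_card this).trans Finset.card_le_two

lemma maxsum (K : ℕ) : ∑ p ∈ Finset.range K, ∑ q ∈ Finset.range K,
    (1 : ℝ) / (max p q + 1 : ℕ) ≤ 2 * K := by
  induction K with
  | zero => simp
  | succ K ih =>
    have a1 : ∑ p ∈ Finset.range K, (1 : ℝ) / (max p K + 1 : ℕ) = K * (1 / (K + 1)) := by
      rw [Finset.sum_congr rfl (g := fun _ => (1 : ℝ) / (K + 1)) fun p hp => by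
        rw [max_eq_right (Finset.mem_range.1 hp).le]; simp]
      simp
    rw [Finset.sum_range_succ, Finset.sum_congr rfl fun p _ => Finset.sum_range_succ _ _,
      Finset.sum_add_distrib, Finset.sum_range_succ, a1]
    simp only [max_comm K, a1, max_self]
    have a2 : (K + 1 : ℝ) * (1 / (K + 1)) = 1 := by field_simp
    have a3 : (0 : ℝ) ≤ 1 / (K + 1) := by positivity
    push_cast at ih ⊢
    linarith

lemma grid_sum {N : ℕ} (hN : 0 < N) {z : ℂ} (h1 : z.re ∈ Icc (-1 : ℝ) 1)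
    (h2 : z.im ∈ Icc (-1 : ℝ) 1) (hz : ∀ q, 1 / (2 * N) ≤ ‖z - gp N q‖) :
    ∑ q ∈ Finset.Ico (-N : ℤ) N ×ˢ Finset.Ico (-N : ℤ) N, 1 / ‖z - gp N q‖ ≤ 96 * N ^ 2 := by
  have h0 : (0 : ℝ) < N := by positivity
  have hK : ∀ t ∈ Icc (-1 : ℝ) 1, ∀ j ∈ Finset.Ico (-N : ℤ) N, (j - ⌊t * N⌋).natAbs < 3 * N := by
    intro t ht j hj
    have a1 : (-N : ℤ) ≤ ⌊t * N⌋ := Int.le_floor.2 (by push_cast; nlinarith [ht.1])
    have a2 : ⌊t * N⌋ ≤ N := Int.floor_le_iff.2 (by push_cast; nlinarith [ht.2])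
    rw [Finset.mem_Ico] at hj
    omega
  calc _ ≤ ∑ q ∈ Finset.Ico (-N : ℤ) N ×ˢ Finset.Ico (-N : ℤ) N, 4 * N * ((1 : ℝ) /
        (max (q.1 - ⌊z.re * N⌋).natAbs (q.2 - ⌊z.im * N⌋).natAbs + 1 : ℕ)) := by
        refine Finset.sum_le_sum fun q _ => ?_
        have a1 := dist1 hN (hz q) (re_le z N q)
        have a2 := dist1 hN (hz q) (im_le z N q)
        rw [mul_one_div, div_le_div_iff₀ (lt_of_lt_of_le (by positivity) (hz q)) (by positivity),
          one_mul]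
        push_cast
        rw [← max_add_add_right]
        exact max_le a1 a2
    _ ≤ 4 * N * (2 * (2 * (2 * (3 * N : ℕ)))) := by
        rw [← Finset.mul_sum, Finset.sum_product]
        gcongr
        refine (Finset.sum_le_sum fun j _ => fold (ψ := fun q => (1 : ℝ) /
          (max (j - ⌊z.re * N⌋).natAbs q + 1 : ℕ)) (fun _ => by positivity) _ _ (hK _ h2)).trans ?_
        rw [← Finset.mul_sum]
        gcongr
        refine (fold (ψ := fun p => ∑ q ∈ Finset.range (3 * N), (1 : ℝ) / (max p q + 1 : ℕ))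
          (fun _ => by positivity) _ _ (hK _ h1)).trans ?_
        gcongr
        exact maxsum _
    _ = _ := by push_cast; ring

lemma step (n : ℕ) {N : ℕ} (hN : 0 < N) {r η : ℝ} (hr : 0 < r) (hη : 0 < η) :
    ∃ (N' : ℕ) (r' : ℝ), 0 < N' ∧ 0 < r' ∧ 4 * N ∣ N' ∧ N' ^ 2 * r' ≤ N ^ 2 * r / 2 ∧
      N' ^ 2 * r' ≤ η ∧ ∃ L : ℕ, 4 * n ≤ N' ^ 2 * r' * ∑ i ∈ Finset.range L, (1 / (i + 1) : ℝ) ∧
        L * L ≤ N' ∧ 2 * L + 1 ≤ r * N' := by
  obtain ⟨ε, e0, e1, e2⟩ : ∃ ε : ℝ, 0 < ε ∧ ε ≤ N ^ 2 * r / 2 ∧ ε ≤ η :=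
    ⟨min _ _, lt_min (by positivity) hη, min_le_left _ _, min_le_right _ _⟩
  obtain ⟨L, hL⟩ := (Real.tendsto_sum_range_one_div_nat_succ_atTop.eventually_ge_atTop
    (4 * n / ε)).exists
  obtain ⟨t, ht⟩ := exists_nat_ge ((2 * L + 1) / r)
  have h1 : t + L * L + 1 ≤ 4 * N * (t + L * L + 1) := Nat.le_mul_of_pos_left _ (by omega)
  obtain ⟨N', hN'⟩ : ∃ N', N' = 4 * N * (t + L * L + 1) := ⟨_, rfl⟩
  rw [← hN'] at h1
  have h2 : 0 < N' := by omega
  have e : (N' : ℝ) ^ 2 * (ε / N' ^ 2) = ε := by field_simp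
  refine ⟨N', ε / N' ^ 2, h2, by positivity, ⟨_, hN'⟩, by rwa [e], by rwa [e], L, ?_, by omega, ?_⟩
  · rwa [e, ← div_le_iff₀' e0]
  · rw [← div_le_iff₀' hr]
    exact ht.trans (by exact_mod_cast (by omega))

end Pool.Agent.H.MP_7cb37e_an
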