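import Pool.Agent.H.MP_7cb37e_an.B

set_option autoImplicit false
set_option maxHeartbeats 400000
open Set Filter Topology Metric Complex
open scoped Real

namespace Pool.Agent.H.MP_7cb37e_an

noncomputable def eta (n N : ℕ) : ℝ := Real.exp (-(n * Real.exp (π / (2 * (1 / (4 * N))))))

structure Good (N : ℕ → ℕ) (r : ℕ → ℝ) : Prop where
  N0 : ∀ n, 0 < N n
  r0 : ∀ n, 0 < r n
  e0 : (N 0 : ℝ) ^ 2 * r 0 ≤ 1 / 4
  dv : ∀ n, 4 * N n ∣ N (n + 1)
  hf : ∀ n, (N (n + 1) : ℝ) ^ 2 * r (n + 1) ≤ N n ^ 2 * r n / 2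
  et : ∀ n, (N (n + 1) : ℝ) ^ 2 * r (n + 1) ≤ eta n (N n) / 384
  ex : ∀ n : ℕ, ∃ L : ℕ, 4 * n ≤ (N (n + 1) : ℝ) ^ 2 * r (n + 1) *
    ∑ i ∈ Finset.range L, (1 / (i + 1) : ℝ) ∧ L * L ≤ N (n + 1) ∧ 2 * L + 1 ≤ r n * N (n + 1)

lemma ex_good : ∃ N r, Good N r := by
  have h : ∀ (n : ℕ) (s : {s : ℕ × ℝ // 0 < s.1 ∧ 0 < s.2}), _ := fun n s =>
    step n s.2.1 s.2.2 (η := eta n s.1.1 / 384) (by unfold eta; positivity)
  choose f g a1 a2 a3 a4 a5 a6 using h
  obtain ⟨s, s0, hs⟩ : ∃ s : ℕ → {s : ℕ × ℝ // 0 < s.1 ∧ 0 < s.2}, (s 0).1 = (1, 1 / 4) ∧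
      ∀ n, (s (n + 1)).1 = (f n (s n), g n (s n)) :=
    ⟨fun n => Nat.rec ⟨(1, 1 / 4), by norm_num⟩ (fun n s => ⟨(f n s, g n s), a1 n s, a2 n s⟩) n,
      rfl, fun _ => rfl⟩
  refine ⟨fun n => (s n).1.1, fun n => (s n).1.2, fun n => (s n).2.1, fun n => (s n).2.2,
    by simp [s0], ?_, ?_, ?_, ?_⟩ <;> intro n <;> simp only [hs]
  exacts [a3 n _, a4 n _, a5 n _, a6 n _]

variable {N : ℕ → ℕ} {r : ℕ → ℝ}

lemma Good.eps (G : Good N r) (n k : ℕ) :
    (N (n + k) : ℝ) ^ 2 * r (n + k) ≤ N n ^ 2 * r n * (1 / 2) ^ k := by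
  induction k with
  | zero => simp
  | succ k ih => rw [pow_succ (1 / 2 : ℝ), ← add_assoc]; linarith [G.hf (n + k)]

lemma Good.e1 (G : Good N r) (n : ℕ) : (N n : ℝ) ^ 2 * r n ≤ 1 / 4 := by
  induction n with
  | zero => exact G.e0
  | succ k ih => linarith [G.hf k]

lemma Good.rN (G : Good N r) (n : ℕ) : r n ≤ 1 / (4 * N n) := by
  have h1 : (1 : ℝ) ≤ N n := by exact_mod_cast G.N0 n
  rw [le_div_iff₀ (by positivity)]
  nlinarith [G.e1 n, mul_nonneg (mul_pos (G.r0 n) (zero_lt_one.trans_le h1)).le (sub_nonneg.2 h1)]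

lemma Good.rN' (G : Good N r) (n : ℕ) : 2 * r n ≤ 1 / (2 * N n) := by
  have h1 : (0 : ℝ) < N n := by exact_mod_cast G.N0 n
  have : (1 : ℝ) / (2 * N n) = 2 * (1 / (4 * N n)) := by field_simp; ring
  linarith [G.rN n]

lemma Good.le (G : Good N r) (n : ℕ) : 4 * N n ≤ N (n + 1) := Nat.le_of_dvd (G.N0 _) (G.dv n)

lemma Good.mono (G : Good N r) : StrictMono N :=
  strictMono_nat_of_lt_succ fun n => by have := G.le n; have := G.N0 n; omega

lemma Good.anti (G : Good N r) : Antitone r := by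
  refine antitone_nat_of_succ_le fun n => ?_
  have h1 : (N n : ℝ) ≤ N (n + 1) := by exact_mod_cast G.mono.monotone n.le_succ
  have h0 : (0 : ℝ) < N n := by exact_mod_cast G.N0 n
  have h2 : (N n : ℝ) ^ 2 * r (n + 1) ≤ N (n + 1) ^ 2 * r (n + 1) := by
    have := G.r0 (n + 1); gcongr
  have h3 : (N n : ℝ) ^ 2 * r (n + 1) ≤ N n ^ 2 * r n := by
    have := G.r0 n
    have : 0 < (N n : ℝ) ^ 2 * r n := by positivity
    linarith [G.hf n]
  exact le_of_mul_le_mul_left h3 (by positivity)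

lemma Good.dvd (G : Good N r) {n m : ℕ} (h : n < m) : 4 * N n ∣ N m := by
  induction m, h using Nat.le_induction with
  | base => exact G.dv n
  | succ m _ ih => exact ih.trans ((Dvd.intro_left 4 rfl).trans (G.dv m))

def TT (N : ℕ → ℕ) (r : ℕ → ℝ) : ℕ → Set ℂ
  | 0 => ∅
  | n + 1 => TT N r n ∪ {z | ∃ q, Disjoint (closedBall (gp (N n) q) (r n)) (TT N r n) ∧
      z ∈ closedBall (gp (N n) q) (r n)}

def Kept (N : ℕ → ℕ) (r : ℕ → ℝ) (n : ℕ) (q : ℤ × ℤ) : Prop :=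
  Disjoint (closedBall (gp (N n) q) (r n)) (TT N r n)

lemma mem_TT {n : ℕ} {z : ℂ} :
    z ∈ TT N r n ↔ ∃ m < n, ∃ q, Kept N r m q ∧ z ∈ closedBall (gp (N m) q) (r m) := by
  induction n with
  | zero => simp [TT]
  | succ n ih => rw [TT, mem_union, ih, Nat.exists_lt_succ_right]; rfl

def XX (N : ℕ → ℕ) (r : ℕ → ℝ) : Set ℂ :=
  (Icc (-1) 1 ×ℂ Icc (-1) 1) \ ⋃ (m : ℕ) (q : ℤ × ℤ) (_ : Kept N r m q), ball (gp (N m) q) (r m)

lemma XX_compact : IsCompact (XX N r) :=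
  (isCompact_Icc.reProdIm isCompact_Icc).diff
    (isOpen_iUnion fun _ => isOpen_iUnion fun _ => isOpen_iUnion fun _ => isOpen_ball)

lemma mem_XX {z : ℂ} : z ∈ XX N r ↔ (z.re ∈ Icc (-1 : ℝ) 1 ∧ z.im ∈ Icc (-1 : ℝ) 1) ∧
    ∀ m q, Kept N r m q → r m ≤ ‖z - gp (N m) q‖ := by
  simp [XX, mem_reProdIm, dist_eq_norm]

lemma Good.disj (G : Good N r) {m m' : ℕ} {q q' : ℤ × ℤ} (h : Kept N r m q) (h' : Kept N r m' q')
    (hne : m ≠ m' ∨ q ≠ q') :
    Disjoint (closedBall (gp (N m) q) (r m)) (closedBall (gp (N m') q') (r m')) := by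
  rcases lt_trichotomy m m' with a | rfl | a
  · exact (h'.mono_right fun z hz => mem_TT.2 ⟨m, a, q, h, hz⟩).symm
  · apply closedBall_disjoint_closedBall
    have h0 : (0 : ℝ) < N m := by exact_mod_cast G.N0 m
    have a1 := gp_sep (G.N0 m) (hne.resolve_left (by simp))
    have a2 : (1 : ℝ) / (2 * N m) < 1 / N m := one_div_lt_one_div_of_lt h0 (by linarith)
    rw [dist_eq_norm]
    linarith [G.rN' m]
  · exact h.mono_right fun z hz => mem_TT.2 ⟨m', a, q', h', hz⟩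

lemma Good.big (G : Good N r) {x : ℂ} (hx : x ∈ XX N r) (n : ℕ) :
    ∃ (ρ : ℝ) (s : Finset (Σ _ : ℕ, ℕ)) (c : (Σ _ : ℕ, ℕ) → ℂ), 0 ≤ ρ ∧
      (∀ i ∈ s, c i ∉ XX N r) ∧ (∀ z ∈ XX N r, ∑ i ∈ s, ρ / ‖z - c i‖ ≤ 2) ∧
      (n : ℝ) ≤ ∑ i ∈ s, ρ / ‖x - c i‖ ^ 2 := by
  have hδ := G.r0 n
  by_cases h : Disjoint (closedBall x (r n)) (TT N r (n + 1))
  · obtain ⟨L, l1, l2, l3⟩ := G.ex n
    have hM := G.N0 (n + 1)
    have hρ := G.r0 (n + 1)
    have e1 := G.e1 (n + 1)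
    have e2 := G.rN' (n + 1)
    obtain ⟨M, hM'⟩ : ∃ M, M = N (n + 1) := ⟨_, rfl⟩
    obtain ⟨ρ, hρ'⟩ : ∃ ρ, ρ = r (n + 1) := ⟨_, rfl⟩
    simp only [← hM', ← hρ'] at l1 l2 l3 hM hρ e1 e2
    have hM0 : (0 : ℝ) < M := by positivity
    obtain ⟨c, hc⟩ : ∃ c : (Σ _ : ℕ, ℕ) → ℂ,
      c = fun i => gp M (⌊x.re * M⌋ + i.1, ⌊x.im * M⌋ + i.2) := ⟨_, rfl⟩
    obtain ⟨s, hs⟩ : ∃ s : Finset (Σ _ : ℕ, ℕ),
      s = (Finset.range L).sigma fun i => Finset.range (i + 1) := ⟨_, rfl⟩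
    have hs' : ∀ i ∈ s, i.1 < L ∧ i.2 ≤ i.1 := fun i hi => by
      simpa [hs, Nat.lt_succ_iff] using hi
    have k1 : ∀ (t : ℝ) (i : ℕ), |t - ((⌊t * M⌋ + i : ℤ) + 1 / 2) / M| ≤ (i + 1) / M := by
      intro t i
      have a := fl hM t (⌊t * M⌋ + i)
      rw [add_sub_cancel_left, Int.cast_natCast, abs_le] at a
      rw [le_div_iff₀ hM0, ← abs_of_pos hM0, ← abs_mul, abs_of_pos hM0, abs_le]
      have : (0 : ℝ) ≤ i := Nat.cast_nonneg i
      constructor <;> linarith [a.1, a.2]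
    have k2 : ∀ i ∈ s, ‖x - c i‖ ≤ 2 * (i.1 + 1) / M := by
      intro i hi
      refine (norm_le_abs_re_add_abs_im _).trans ?_
      have a : ((i.2 : ℝ) + 1) / M ≤ (i.1 + 1) / M := by
        gcongr; exact (hs' i hi).2
      rw [mul_div_assoc, two_mul, hc]
      exact add_le_add (k1 _ _) ((k1 _ _).trans a)
    have k3 : ∀ i ∈ s, ∀ z ∈ XX N r, ρ ≤ ‖z - c i‖ := by
      intro i hi z hz
      have := (mem_XX.1 hz).2 (n + 1) (⌊x.re * M⌋ + i.1, ⌊x.im * M⌋ + i.2) (by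
        refine h.mono_left (closedBall_subset_closedBall' ?_)
        have a := k2 i hi
        have b : (i.1 + 1 : ℝ) ≤ L := by exact_mod_cast (hs' i hi).1
        have d : (1 : ℝ) / (2 * M) ≤ 1 / M := one_div_le_one_div_of_le hM0 (by linarith)
        have e : 2 * (i.1 + 1 : ℝ) / M + 1 / M ≤ r n := by
          rw [← add_div, div_le_iff₀ hM0]; linarith
        rw [← hM', ← hρ', dist_comm, dist_eq_norm]
        rw [hc] at a
        linarith)
      rw [hc]
      rwa [← hM', ← hρ'] at this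
    refine ⟨ρ, s, c, hρ.le, fun i hi hz => ?_, fun z hz => ?_, ?_⟩
    · have := k3 i hi _ hz
      rw [sub_self, norm_zero] at this
      linarith
    · rw [← Finset.sum_filter_add_sum_filter_not s (fun i => ‖z - c i‖ < 1 / (2 * M))]
      have b1 : (s.filter fun i => ‖z - c i‖ < 1 / (2 * M)).card ≤ 1 := by
        refine Finset.card_le_one.2 fun i hi j hj => ?_
        by_contra hne
        have a1 := gp_sep hM (q := (⌊x.re * M⌋ + i.1, ⌊x.im * M⌋ + i.2))
          (q' := (⌊x.re * M⌋ + j.1, ⌊x.im * M⌋ + j.2)) (fun e => hne (by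
            simp only [Prod.mk.injEq, add_right_inj, Nat.cast_inj] at e
            exact Sigma.ext e.1 (heq_of_eq e.2)))
        have a2 := (Finset.mem_filter.1 hi).2
        have a3 := (Finset.mem_filter.1 hj).2
        have a4 := norm_sub_le_norm_sub_add_norm_sub (c i) z (c j)
        have a5 : (1 : ℝ) / M = 2 * (1 / (2 * M)) := by field_simp
        rw [norm_sub_rev (c i) z] at a4
        rw [hc] at a4
        rw [hc] at a2 a3
        linarith
      have b2 : s.card ≤ M := by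
        rw [hs, Finset.card_sigma]
        refine (Finset.sum_le_card_nsmul _ _ L fun i hi => ?_).trans (by simpa using l2)
        simpa using hi
      have b3 := Finset.sum_le_card_nsmul (s.filter fun i => ‖z - c i‖ < 1 / (2 * M))
        (fun i => ρ / ‖z - c i‖) 1 fun i hi => div_le_one_of_le₀
          (k3 i (Finset.mem_filter.1 hi).1 z hz) (norm_nonneg _)
      have b4 := Finset.sum_le_card_nsmul (s.filter fun i => ¬ ‖z - c i‖ < 1 / (2 * M))
        (fun i => ρ / ‖z - c i‖) (ρ / (1 / (2 * M))) fun i hi => by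
          have := not_lt.1 (Finset.mem_filter.1 hi).2
          gcongr
      have b5 : ((s.filter fun i => ¬ ‖z - c i‖ < 1 / (2 * M)).card : ℝ) ≤ M := by
        exact_mod_cast (Finset.card_filter_le _ _).trans b2
      have b6 : ((s.filter fun i => ‖z - c i‖ < 1 / (2 * M)).card : ℝ) ≤ 1 := by exact_mod_cast b1
      rw [nsmul_eq_mul] at b3 b4
      have b7 := mul_le_mul_of_nonneg_right b5 (show 0 ≤ ρ / (1 / (2 * M)) by positivity)
      have b8 : M * (ρ / (1 / (2 * M))) = 2 * (M ^ 2 * ρ) := by field_simp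
      linarith
    · calc (n : ℝ) ≤ ∑ i ∈ s, ρ / (2 * (i.1 + 1) / M) ^ 2 := by
            rw [hs, Finset.sum_sigma, Finset.sum_congr rfl
              (g := fun i : ℕ => M ^ 2 * ρ / 4 * (1 / (i + 1))) fun i _ => by
                simp only [Finset.sum_const, Finset.card_range, nsmul_eq_mul]
                push_cast
                field_simp
                ring, ← Finset.mul_sum]
            linarith
        _ ≤ _ := Finset.sum_le_sum fun i hi => by
            have := hρ.trans_le (k3 i hi x hx)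
            have := k2 i hi
            gcongr
  · obtain ⟨w, w1, w2⟩ := not_disjoint_iff.1 h
    obtain ⟨m, hm, q, hq, w3⟩ := mem_TT.1 w2
    have a1 : r n ≤ r m := G.anti (Nat.lt_succ_iff.1 hm)
    have a2 := (mem_XX.1 hx).2 m q hq
    have hK : ∀ z ∈ XX N r, r m ≤ ‖z - gp (N m) q‖ := fun z hz => (mem_XX.1 hz).2 m q hq
    obtain ⟨a, ha⟩ : ∃ a, a = gp (N m) q := ⟨_, rfl⟩
    rw [← ha] at w3 a2 hK
    have a3 := norm_sub_le_norm_sub_add_norm_sub x w a
    rw [mem_closedBall_iff_norm] at w1 w3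
    rw [norm_sub_rev] at w1
    have a4 : 0 < ‖x - a‖ := by linarith
    obtain ⟨t, ht⟩ : ∃ t, t = (r m - r n) / ‖x - a‖ := ⟨_, rfl⟩
    have t0 : 0 ≤ t := by rw [ht]; exact div_nonneg (by linarith) a4.le
    have t1 : t * ‖x - a‖ = r m - r n := by rw [ht]; field_simp
    have b1 : ∀ z ∈ XX N r, r n ≤ ‖z - (a + t * (x - a))‖ := by
      intro z hz
      have := norm_add_le (z - (a + t * (x - a))) (t * (x - a))
      rw [norm_mul, norm_real, Real.norm_of_nonneg t0, t1,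
        show z - (a + t * (x - a)) + t * (x - a) = z - a by ring] at this
      linarith [hK z hz]
    have b2 : ‖x - (a + t * (x - a))‖ ≤ 2 * r n := by
      rw [show x - (a + t * (x - a)) = ((1 - t : ℝ) : ℂ) * (x - a) by push_cast; ring, norm_mul,
        norm_real, Real.norm_of_nonneg (by nlinarith), sub_mul, t1]
      linarith
    refine ⟨r n, {⟨0, 0⟩}, fun _ => a + t * (x - a), hδ.le, fun _ _ hz => ?_, fun z hz => ?_, ?_⟩
    · have := b1 _ hz
      rw [sub_self, norm_zero] at this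
      linarith
    · rw [Finset.sum_singleton]
      exact (div_le_one_of_le₀ (b1 z hz) (norm_nonneg _)).trans one_le_two
    · rw [Finset.sum_singleton]
      have c1 := hδ.trans_le (b1 x hx)
      have c2 : (n : ℝ) ≤ N n := by exact_mod_cast G.mono.le_apply
      have c3 := G.rN n
      rw [le_div_iff₀ (by have := G.N0 n; positivity)] at c3
      rw [le_div_iff₀ (by positivity)]
      calc _ ≤ N n * (2 * r n) ^ 2 := by gcongr
        _ ≤ _ := by nlinarith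

end Pool.Agent.H.MP_7cb37e_an
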