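import Pool.Agent.H.MP_7cb37e_an.C

set_option autoImplicit false
set_option maxHeartbeats 400000
open Set Filter Topology Metric Complex
open scoped Real

namespace Pool.Agent.H.MP_7cb37e_an

variable {N : ℕ → ℕ} {r : ℕ → ℝ}

noncomputable def box (M : ℕ) : Finset (ℤ × ℤ) := Finset.Ico (-M : ℤ) M ×ˢ Finset.Ico (-M : ℤ) M

lemma in1 {M : ℕ} (hM : 0 < M) {j : ℤ} (hj : j ∈ Finset.Ico (-M : ℤ) M) {t : ℝ}
    (h : |t - (j + 1 / 2) / M| ≤ 1 / (4 * M)) : t ∈ Icc (-1 : ℝ) 1 := by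
  have h0 : (0 : ℝ) < M := by positivity
  rw [Finset.mem_Ico] at hj
  have a1 : (-M : ℝ) ≤ j := by exact_mod_cast hj.1
  have a2 : (j + 1 : ℝ) ≤ M := by exact_mod_cast hj.2
  rw [abs_le] at h
  have e : (1 : ℝ) / (4 * M) * M = 1 / 4 := by field_simp
  have e2 : (j + 1 / 2 : ℝ) / M * M = j + 1 / 2 := by field_simp
  constructor <;> nlinarith [h.1, h.2]

lemma in2 {M : ℕ} (hM : 0 < M) {j : ℤ} {t : ℝ} (ht : t ∈ Icc (-1 : ℝ) 1)
    (h : |t - (j + 1 / 2) / M| ≤ 1 / (4 * M)) : j ∈ Finset.Ico (-M : ℤ) M := by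
  have h0 : (0 : ℝ) < M := by positivity
  rw [abs_le] at h
  have e : (1 : ℝ) / (4 * M) * M = 1 / 4 := by field_simp
  have e2 : (j + 1 / 2 : ℝ) / M * M = j + 1 / 2 := by field_simp
  have a1 : (-M : ℝ) < j + 1 := by nlinarith [h.1, h.2, ht.1, ht.2]
  have a2 : (j : ℝ) < M := by nlinarith [h.1, h.2, ht.1, ht.2]
  rw [Finset.mem_Ico]
  exact ⟨Int.lt_add_one_iff.1 (by exact_mod_cast a1), by exact_mod_cast a2⟩

lemma Good.early (G : Good N r) {m n : ℕ} (h : m ≤ n) {z : ℂ}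
    (hz : z.im ∈ Icc (-(1 / (4 * N n : ℝ))) (1 / (4 * N n))) (q : ℤ × ℤ) :
    r m ≤ ‖z - gp (N m) q‖ := by
  have h0 : (0 : ℝ) < N m := by exact_mod_cast G.N0 m
  have h1 : (N m : ℝ) ≤ N n := by exact_mod_cast G.mono.monotone h
  have a1 := sep (G.N0 m) (t := 0) (m := 0) (by simp) q.2
  have a2 : (1 : ℝ) / (4 * N n) ≤ 1 / (4 * N m) := by gcongr
  have a3 : (1 : ℝ) / (2 * N m) = 2 * (1 / (4 * N m)) := by field_simp; ring
  have a4 := abs_sub_le 0 z.im ((q.2 + 1 / 2) / N m)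
  rw [zero_sub z.im, abs_neg] at a4
  linarith [im_le z (N m) q, G.rN m, abs_le.2 hz]

lemma Good.app (G : Good N r) (n : ℕ) {f : ℂ → ℂ} (hf : f ∈ V (XX N r)) {B : ℝ}
    (hB0 : 0 ≤ B) (hB : ∀ z ∈ XX N r, ‖f z‖ ≤ B) :
    ∃ g, DifferentiableOn ℂ g (Icc (-1) 1 ×ℂ Icc (-(1 / (4 * N n : ℝ))) (1 / (4 * N n))) ∧
      ∀ z ∈ Icc (-1) 1 ×ℂ Icc (-(1 / (4 * N n : ℝ))) (1 / (4 * N n)),
        (∀ m, n < m → ∃ k : ℤ, z.re * N m = k ∨ z.im * N m = k) →
        z ∈ XX N r ∧ ‖g z - f z‖ ≤ eta n (N n) * B := by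
  have h1 : (1 : ℝ) / (4 * N n) ≤ 1 := by
    have : (1 : ℝ) ≤ N n := by exact_mod_cast G.N0 n
    rw [div_le_one (by positivity)]; linarith
  have hQ : ∀ z ∈ Icc (-1) 1 ×ℂ Icc (-(1 / (4 * N n : ℝ))) (1 / (4 * N n)),
      z.re ∈ Icc (-1 : ℝ) 1 ∧ z.im ∈ Icc (-1 : ℝ) 1 := fun z hz =>
    ⟨hz.1, by linarith [hz.2.1], by linarith [hz.2.2]⟩
  refine Exists.imp (fun g hg => ?_) (approx (W := Icc (-1) 1 ×ℂ Icc (-(1 / (4 * N n : ℝ))) (1 / (4 * N n)))
    (ι := {p : Σ _ : ℕ, ℤ × ℤ // Kept N r (n + 1 + p.1) p.2 ∧ p.2 ∈ box (N (n + 1 + p.1))})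
    (a := fun p => gp (N (n + 1 + p.1.1)) p.1.2) (ρ := fun p => r (n + 1 + p.1.1))
    (η := eta n (N n)) (fun _ => G.r0 _) ?_ ?_ ?_ hf hB0 hB)
  · obtain ⟨g1, g2⟩ := hg
    refine ⟨g1, fun z hz hg => ?_⟩
    have a1 : ∀ m, n < m → ∀ q, 1 / (2 * N m) ≤ ‖z - gp (N m) q‖ := by
      intro m hm q
      obtain ⟨k, hk | hk⟩ := hg m hm
      · exact (sep (G.N0 m) hk _).trans (re_le z _ q)
      · exact (sep (G.N0 m) hk _).trans (im_le z _ q)
    have a2 : ∀ m, n < m → ∀ q, 2 * r m ≤ ‖z - gp (N m) q‖ := fun m hm q =>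
      (G.rN' m).trans (a1 m hm q)
    refine ⟨mem_XX.2 ⟨hQ z hz, fun m q _ => ?_⟩, g2 z (fun p => ?_) fun A => ?_⟩
    · rcases le_or_gt m n with h | h
      · exact G.early h hz.2 q
      · linarith [a2 m h q, G.r0 m]
    · linarith [a2 (n + 1 + p.1.1) (by omega) p.1.2, G.r0 (n + 1 + p.1.1)]
    · obtain ⟨K, hK⟩ := (A.image fun p => p.1.1).exists_nat_subset_range
      calc _ ≤ ∑ p ∈ A.map (Function.Embedding.subtype _),
            2 * r (n + 1 + p.1) * (1 / ‖z - gp (N (n + 1 + p.1)) p.2‖) := by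
            rw [Finset.sum_map]
            refine Finset.sum_le_sum fun p _ => ?_
            have b1 := a2 (n + 1 + p.1.1) (by omega) p.1.2
            have b2 := G.r0 (n + 1 + p.1.1)
            rw [Function.Embedding.subtype_apply, mul_one_div,
              div_le_div_iff₀ (by linarith) (by linarith)]
            nlinarith
        _ ≤ ∑ p ∈ (Finset.range K).sigma fun k => box (N (n + 1 + k)),
            2 * r (n + 1 + p.1) * (1 / ‖z - gp (N (n + 1 + p.1)) p.2‖) := by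
            refine Finset.sum_le_sum_of_subset_of_nonneg (fun p hp => ?_) fun p _ _ => ?_
            · obtain ⟨p, a, rfl⟩ := Finset.mem_map.1 hp
              exact Finset.mem_sigma.2 ⟨hK (Finset.mem_image_of_mem _ a), p.2.2⟩
            · have := G.r0 (n + 1 + p.1); positivity
        _ ≤ ∑ k ∈ Finset.range K, 192 * (N (n + 1) ^ 2 * r (n + 1)) * (1 / 2 : ℝ) ^ k := by
            rw [Finset.sum_sigma]
            refine Finset.sum_le_sum fun k _ => ?_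
            have b1 := grid_sum (G.N0 (n + 1 + k)) (hQ z hz).1 (hQ z hz).2 (a1 _ (by omega))
            have b2 := mul_le_mul_of_nonneg_left b1 (G.r0 (n + 1 + k)).le
            simp only [← Finset.mul_sum, box]
            linarith [G.eps (n + 1) k]
        _ ≤ _ := by
            rw [← Finset.mul_sum]
            have b1 := mul_le_mul_of_nonneg_left (sum_geometric_two_le K)
              (show (0 : ℝ) ≤ N (n + 1) ^ 2 * r (n + 1) by have := G.r0 (n + 1); positivity)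
            linarith [G.et n]
  · rintro ⟨⟨k, q⟩, a, b⟩ z hz
    have c1 : ‖z - gp (N (n + 1 + k)) q‖ = r (n + 1 + k) := mem_sphere_iff_norm.1 hz
    have c2 := c1.le.trans (G.rN _)
    have c3 := Finset.mem_product.1 b
    refine mem_XX.2 ⟨⟨in1 (G.N0 _) c3.1 ((re_le z _ q).trans c2),
      in1 (G.N0 _) c3.2 ((im_le z _ q).trans c2)⟩, fun m q' h => ?_⟩
    by_cases e : n + 1 + k ≠ m ∨ q ≠ q'
    · have := disjoint_left.1 (G.disj a h e) (sphere_subset_closedBall hz)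
      rw [mem_closedBall_iff_norm] at this
      exact (not_le.1 this).le
    · push Not at e
      rw [← e.1, ← e.2, c1]
  · rintro ⟨⟨k, q⟩, a, b⟩ ⟨⟨k', q'⟩, a', b'⟩ hne
    refine G.disj a a' ?_
    by_contra e
    push Not at e
    obtain ⟨e1, rfl⟩ := e
    obtain rfl : k = k' := by simpa using e1
    exact hne rfl
  · intro c hc hX
    rw [mem_XX] at hX
    push Not at hX
    obtain ⟨m, q, a, b⟩ := hX (hQ c hc)
    have hm : n < m := lt_of_not_ge fun h => (G.early h hc.2 q).not_gt b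
    obtain ⟨k, rfl⟩ := Nat.exists_eq_add_of_le (Nat.succ_le_of_lt hm)
    have c2 := b.le.trans (G.rN _)
    exact ⟨⟨⟨k, q⟩, a, Finset.mem_product.2 ⟨in2 (G.N0 _) (hQ c hc).1 ((re_le c _ q).trans c2),
      in2 (G.N0 _) (hQ c hc).2 ((im_le c _ q).trans c2)⟩⟩, mem_ball_iff_norm.2 b⟩

lemma Good.zero (G : Good N r) : (0 : ℂ) ∈ XX N r :=
  mem_XX.2 ⟨by simp, fun m q _ => G.early le_rfl (by simp) q⟩

theorem Good.nonreg (G : Good N r) {f : C(XX N r, ℂ)} (hf : f ∈ closure (A0 (XX N r) : Set _))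
    (h0 : f ⟨0, G.zero⟩ = 1) (h1 : ∀ z : XX N r, z.1.re = -1 ∨ z.1.re = 1 → f z = 0) : False := by
  haveI : CompactSpace (XX N r) := isCompact_iff_compactSpace.1 XX_compact
  obtain ⟨B, hB⟩ : ∃ B, B = ‖f‖ + 1 := ⟨_, rfl⟩
  have hB1 : 1 ≤ B := by linarith [norm_nonneg f]
  obtain ⟨n, hn⟩ := exists_nat_ge (4 * B)
  have hN : (0 : ℝ) < N n := by exact_mod_cast G.N0 n
  have e0 : 0 < eta n (N n) := Real.exp_pos _
  have e1 : eta n (N n) ≤ Real.exp (-n) := Real.exp_le_exp.2 (neg_le_neg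
    (le_mul_of_one_le_right (Nat.cast_nonneg n) (Real.one_le_exp (by positivity))))
  have e2 : 4 * B * Real.exp (-n) < 1 := by
    rw [Real.exp_neg, ← div_eq_mul_inv, div_lt_one (Real.exp_pos _)]
    linarith [Real.add_one_le_exp (n : ℝ)]
  have e3 : eta n (N n) ≤ 1 := e1.trans (Real.exp_le_one_iff.2 (by simp))
  obtain ⟨u, ⟨p, q, a1, a2⟩, a3⟩ := Metric.mem_closure_iff.1 hf (eta n (N n) / 2) (by positivity)
  obtain ⟨v, hv, a4⟩ := dense XX_compact.isClosed p _ q rfl a1 (eta n (N n) / 2) (by positivity)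
  have a5 : ∀ z (hz : z ∈ XX N r), ‖f ⟨z, hz⟩ - v z‖ ≤ eta n (N n) := by
    intro z hz
    have b1 := (ContinuousMap.dist_apply_le_dist (f := f) (g := u) ⟨z, hz⟩).trans a3.le
    rw [dist_eq_norm, a2] at b1
    linarith [norm_sub_le_norm_sub_add_norm_sub (f ⟨z, hz⟩) (p.eval z / q.eval z) (v z), a4 z hz]
  have a6 : ∀ z ∈ XX N r, ‖v z‖ ≤ B := fun z hz => by
    linarith [norm_sub_norm_le (v z) (f ⟨z, hz⟩), norm_sub_rev (v z) (f ⟨z, hz⟩), a5 z hz,
      f.norm_coe_le_norm ⟨z, hz⟩]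
  obtain ⟨g, g1, g2⟩ := G.app n hv (by linarith) a6
  have t := tc (M := 2 * B) (by positivity) (Nat.cast_nonneg n) g1 ?_ ?_
  · obtain ⟨b1, b2⟩ := g2 0 (by simp [mem_reProdIm]) fun m _ => ⟨0, by simp⟩
    have b3 := a5 0 b1
    rw [h0] at b3
    have b4 := norm_sub_le_norm_sub_add_norm_sub 1 (v 0) (g 0)
    have b5 := norm_sub_norm_le 1 (g 0)
    rw [norm_sub_rev (v 0)] at b4
    rw [norm_one] at b5
    nlinarith
  · intro z hz h
    obtain ⟨b1, b2⟩ := g2 z hz fun m hm => by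
      obtain ⟨k, hk⟩ := G.dvd hm
      rcases h with h | h
      · exact ⟨-k, Or.inr (by rw [h, hk]; push_cast; field_simp)⟩
      · exact ⟨k, Or.inr (by rw [h, hk]; push_cast; field_simp)⟩
    nlinarith [norm_sub_norm_le (g z) (v z), a6 z b1]
  · intro z hz h
    obtain ⟨b1, b2⟩ := g2 z hz fun m _ => by
      rcases h with h | h
      · exact ⟨-N m, Or.inl (by simp [h])⟩
      · exact ⟨N m, Or.inl (by simp [h])⟩
    have b3 := a5 z b1
    rw [h1 ⟨z, b1⟩ h, zero_sub, norm_neg] at b3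
    change _ ≤ 2 * B * eta n (N n)
    nlinarith [norm_sub_norm_le (g z) (v z)]

end Pool.Agent.H.MP_7cb37e_an
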